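import Pool.Agent.Helper29.TC.Stmts

/-!
# Row PR: homomorphisms into the product

A map of the vertices to `VV = Fin M → V0` is a family of `M` maps to `V0`.
-/

set_option autoImplicit false

namespace Pool.Agent.Helper29.TC

theorem st_PR : ST_PR := by
  intro α _ _ K κ M D E hE hM
  have e1 : homI E K κ D ^ M = Nat.card (Fin M → {f : α → V0 K κ D |
      Function.Injective (fun i => (f i).2.1) ∧ ∀ e ∈ E, R0 (f e.1) (f e.2)}) := by
    rw [Nat.card_fun, Nat.card_fin, Nat.card_coe_set_eq]
    rfl
  have e2 : homA E K κ D ^ M = Nat.card (Fin M → {f : α → V0 K κ D |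
      ∀ e ∈ E, R0 (f e.1) (f e.2)}) := by
    rw [Nat.card_fun, Nat.card_fin, Nat.card_coe_set_eq]
    rfl
  have e3 : injc E (GG K κ M D) = Nat.card {f : α → Fin (nn K κ M D) |
      Function.Injective f ∧ ∀ e ∈ E, (GG K κ M D).Adj (f e.1) (f e.2)} := by
    rw [Nat.card_coe_set_eq]
    rfl
  rw [e1, e2, e3]
  constructor
  · have key : ∀ g : Fin M → {f : α → V0 K κ D |
        Function.Injective (fun i => (f i).2.1) ∧ ∀ e ∈ E, R0 (f e.1) (f e.2)},
        (fun i => (eqv K κ M D).symm (fun j => (g j).1 i)) ∈ {f : α → Fin (nn K κ M D) |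
          Function.Injective f ∧ ∀ e ∈ E, (GG K κ M D).Adj (f e.1) (f e.2)} := by
      intro g
      have hinj : Function.Injective (fun i => (eqv K κ M D).symm (fun j => (g j).1 i)) := by
        intro i i' h
        have h1 : (fun j => (g j).1 i) = (fun j => (g j).1 i') := (eqv K κ M D).symm.injective h
        have h2 := congrFun h1 ⟨0, hM⟩
        exact (g ⟨0, hM⟩).2.1 (congrArg (fun x : V0 K κ D => x.2.1) h2)
      refine ⟨hinj, fun e he => ⟨fun h => (hE e he).1 (hinj h), ?_⟩⟩
      show RR (eqv K κ M D ((eqv K κ M D).symm _)) (eqv K κ M D ((eqv K κ M D).symm _))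
      rw [Equiv.apply_symm_apply, Equiv.apply_symm_apply]
      exact fun j => (g j).2.2 e he
    refine Nat.card_le_card_of_injective (fun g => ⟨_, key g⟩) ?_
    intro g g' h
    funext j
    apply Subtype.ext
    funext i
    have h1 := congrFun (congrArg Subtype.val h) i
    have h2 := (eqv K κ M D).symm.injective h1
    exact congrFun h2 j
  · refine Nat.card_le_card_of_injective (fun f j => ⟨fun i => eqv K κ M D (f.1 i) j,
      fun e he => (f.2.2 e he).2 j⟩) ?_
    intro f f' h
    apply Subtype.ext
    funext i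
    apply (eqv K κ M D).injective
    funext j
    have h1 := congrFun h j
    have h2 := congrArg Subtype.val h1
    exact congrFun h2 i

end Pool.Agent.Helper29.TC
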